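import Pool.Agent.Helper9.RC2.Goals
import Pool.Agent.Helper10.RC.Basic
import Pool.Agent.Helper8.RC.QOfT

/-! POS: the positive part and the trace -/

open scoped ENNReal NNReal InnerProductSpace ComplexOrder
open Filter Topology

attribute [-instance] CStarMatrix.instAlgebra CStarMatrix.instModule CStarMatrix.instSMul
  CStarMatrix.instMulAction CStarMatrix.instDistribMulAction

set_option linter.unusedSectionVars false

noncomputable section
namespace Pool.Agent.Helper22.RC2.POS
open RC
universe u

variable {A : Type u} [CStarAlgebra A] [PartialOrder A] [StarOrderedRing A]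
variable {ι κ : Type} [Fintype ι] [DecidableEq ι] [Fintype κ] [DecidableEq κ]

theorem tm_trace (φ : TState A) (x : CStarMatrix ι κ A) :
    tm φ (x * x.conjTranspose) = tm φ (x.conjTranspose * x) := by
  unfold tm
  simp only [mul_conj_diag, conj_mul_diag, map_sum, Complex.re_sum]
  rw [Finset.sum_comm]
  refine Finset.sum_congr rfl fun k _ => Finset.sum_congr rfl fun i _ => ?_
  rw [φ.trace]

theorem tm_nonneg (φ : TState A) {a : CStarMatrix ι ι A} (ha : 0 ≤ a) : 0 ≤ tm φ a := by
  obtain ⟨s, hs⟩ := CStarAlgebra.nonneg_iff_eq_mul_star_self.mp ha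
  refine Finset.sum_nonneg fun i _ => ?_
  have h1 : 0 ≤ a i i := by
    rw [hs, ← cm_star_eq, mul_conj_diag]
    exact Finset.sum_nonneg fun k _ => mul_star_self_nonneg _
  exact (Complex.le_def.1 (φ.nonneg _ h1)).1

theorem tm_add (φ : TState A) (a b : CStarMatrix ι ι A) : tm φ (a + b) = tm φ a + tm φ b := by
  unfold tm
  rw [← Finset.sum_add_distrib]
  refine Finset.sum_congr rfl fun i _ => ?_
  have : (a + b) i i = a i i + b i i := rfl
  rw [this, map_add, Complex.add_re]

theorem tm_smul (φ : TState A) (c : ℝ) (a : CStarMatrix ι ι A) : tm φ (c • a) = c * tm φ a := by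
  unfold tm
  rw [Finset.mul_sum]
  refine Finset.sum_congr rfl fun i _ => ?_
  have : (c • a) i i = c • a i i := rfl
  rw [this, ← Complex.coe_smul, map_smul, smul_eq_mul, Complex.re_ofReal_mul]

theorem tm_mono (φ : TState A) {a b : CStarMatrix ι ι A} (h : a ≤ b) : tm φ a ≤ tm φ b := by
  have h1 := tm_nonneg φ (sub_nonneg.2 h)
  have h2 := tm_add φ a (b - a)
  rw [add_sub_cancel] at h2
  linarith

/-- `v vᴴ ≤ L` from `vᴴ v ≤ L` -/
theorem swap_le (v : CStarMatrix κ ι A) {L : ℝ} (hL : 0 ≤ L)
    (h : v.conjTranspose * v ≤ L • (1 : CStarMatrix ι ι A)) :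
    v * v.conjTranspose ≤ L • (1 : CStarMatrix κ κ A) := by
  set P : CStarMatrix κ κ A := v * v.conjTranspose with hP
  have hP0 : 0 ≤ P := cm_mul_conj_nonneg v
  have hPP : P * P ≤ L • P := by
    have h1 := cm_conj_le v h
    have h2 : v * (v.conjTranspose * v) * v.conjTranspose = P * P := by
      rw [hP, ← cm_assoc, ← cm_assoc]
    have h3 : v * (L • (1 : CStarMatrix ι ι A)) * v.conjTranspose = L • P := by
      rw [cm_mul_rsmul, cm_rsmul_mul, cm_mul_one]
    rwa [h2, h3] at h1
  have hsa : star P = P := hP0.isSelfAdjoint.star_eq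
  have hn : ‖P‖ * ‖P‖ ≤ L * ‖P‖ := by
    rw [← CStarRing.norm_star_mul_self, hsa]
    have h4 : (0 : CStarMatrix κ κ A) ≤ P * P := by
      have := star_mul_self_nonneg P
      rwa [hsa] at this
    refine (CStarAlgebra.norm_le_norm_of_nonneg_of_le h4 hPP).trans ?_
    rw [norm_smul, Real.norm_eq_abs, abs_of_nonneg hL]
  have hn2 : ‖P‖ ≤ L := by
    rcases (norm_nonneg P).eq_or_lt with h0 | h0
    · rw [← h0]; exact hL
    · exact le_of_mul_le_mul_right hn h0
  have h5 := (CStarAlgebra.norm_le_iff_le_algebraMap P hL hP0).1 hn2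
  rwa [Algebra.algebraMap_eq_smul_one] at h5

theorem t : PosP.{u} := by
  intro A _ _ _ ν n _ _ _ _ T hT
  refine ⟨cfc (fun t : ℝ => max t 0) T, cfc_nonneg fun _ _ => le_max_right _ _, ?_, ?_⟩
  · conv_lhs => rw [← cfc_id' ℝ T]
    exact cfc_mono fun t _ => le_max_left _ _
  intro φ v k L hL hk hv hTk
  obtain ⟨s, hs⟩ := CStarAlgebra.nonneg_iff_eq_mul_star_self.mp hk
  -- one N
  have key : ∀ N : ℕ, tm φ (cfc (fun t : ℝ => max t 0) T) ≤
      L * tm φ k + ((N : ℝ) + 1)⁻¹ * tm φ (1 : CStarMatrix ν ν A) := by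
    intro N
    have hN : (0 : ℝ) < (N : ℝ) + 1 := by positivity
    set gf : ℝ → ℝ := fun t => min 1 (((N : ℝ) + 1) * max t 0) with hgf
    have hgc : Continuous gf := by fun_prop
    set g : CStarMatrix ν ν A := cfc gf T with hg
    have hgsa : star g = g := (cfc_predicate gf T : IsSelfAdjoint (cfc gf T)).star_eq
    -- h ≤ g T g + 1 / (N + 1)
    have h1 : cfc (fun t : ℝ => max t 0) T ≤ g * T * g + ((N : ℝ) + 1)⁻¹ • (1 : CStarMatrix ν ν A) := by
      have e1 : g * T * g = cfc (fun t => gf t * t * gf t) T := by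
        conv_lhs => rw [hg]
        conv_lhs =>
          enter [1, 2]
          rw [← cfc_id' ℝ T]
        rw [← cfc_mul gf (fun t : ℝ => t) T, ← cfc_mul (fun t => gf t * t) gf T]
      rw [e1, cfc_add_smul_one T _ (by fun_prop) hT]
      refine cfc_mono fun t _ => ?_
      have hN' : 0 < ((N : ℝ) + 1)⁻¹ := inv_pos.2 hN
      rcases le_total t 0 with ht | ht
      · have : gf t = 0 := by
          simp only [hgf, max_eq_right ht, mul_zero]
          exact min_eq_right zero_le_one
        simp only [this, max_eq_right ht]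
        simpa using hN'.le
      · simp only [max_eq_left ht]
        rcases le_total 1 (((N : ℝ) + 1) * t) with h2 | h2
        · have : gf t = 1 := by
            simp only [hgf, max_eq_left ht]
            exact min_eq_left h2
          rw [this]; linarith
        · have h3 : t ≤ ((N : ℝ) + 1)⁻¹ := by
            rw [← one_div, le_div_iff₀ hN]; linarith
          have h4 : 0 ≤ gf t * t * gf t := by
            have : 0 ≤ gf t := by
              simp only [hgf, max_eq_left ht]
              exact le_min zero_le_one (by positivity)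
            positivity
          linarith
    -- g * g ≤ 1
    have hgg : g * g ≤ 1 := by
      rw [hg, ← cfc_mul gf gf T, ← cfc_one ℝ T]
      refine cfc_mono fun t _ => ?_
      have ha : 0 ≤ gf t := le_min zero_le_one (by positivity)
      have hb : gf t ≤ 1 := min_le_left _ _
      show gf t * gf t ≤ 1
      nlinarith
    -- g T g ≤ x xᴴ
    set x : CStarMatrix ν n A := g * v.conjTranspose * s with hx
    have hxc : x.conjTranspose = s.conjTranspose * v * g := by
      rw [hx, cm_conj_mul, cm_conj_mul, cm_conj_conj, cm_star_eq g, hgsa, cm_assoc]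
    have h2 : g * T * g ≤ x * x.conjTranspose := by
      have h3 := cm_conj_le g hTk
      rw [cm_star_eq g, hgsa] at h3
      have h4 : g * (v.conjTranspose * k * v) * g = x * x.conjTranspose := by
        rw [hxc, hx, hs, ← cm_star_eq s]
        simp only [cm_assoc]
      rwa [h4] at h3
    have h3 : tm φ (x * x.conjTranspose) ≤ L * tm φ k := by
      rw [tm_trace]
      have h4 : x.conjTranspose * x ≤ L • (s.conjTranspose * s) := by
        have h5 : x.conjTranspose * x =
            s.conjTranspose * (v * (g * g) * v.conjTranspose) * s := by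
          rw [hxc, hx]
          simp only [cm_assoc]
        have h6 : v * (g * g) * v.conjTranspose ≤ L • (1 : CStarMatrix n n A) := by
          refine (cm_conj_le v hgg).trans ?_
          rw [cm_mul_one]
          exact swap_le v hL hv
        have h7 := cm_conj_le' s h6
        rw [h5]
        refine h7.trans (le_of_eq ?_)
        rw [cm_mul_rsmul, cm_rsmul_mul, cm_mul_one]
      refine (tm_mono φ h4).trans ?_
      rw [tm_smul, ← tm_trace, cm_star_eq, ← hs]
    calc tm φ (cfc (fun t : ℝ => max t 0) T)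
        ≤ tm φ (g * T * g + ((N : ℝ) + 1)⁻¹ • (1 : CStarMatrix ν ν A)) := tm_mono φ h1
      _ = tm φ (g * T * g) + ((N : ℝ) + 1)⁻¹ * tm φ (1 : CStarMatrix ν ν A) := by
          rw [tm_add, tm_smul]
      _ ≤ L * tm φ k + ((N : ℝ) + 1)⁻¹ * tm φ (1 : CStarMatrix ν ν A) := by
          have := (tm_mono φ h2).trans h3
          linarith
  -- limit
  have hlim : Tendsto (fun N : ℕ => L * tm φ k + ((N : ℝ) + 1)⁻¹ * tm φ (1 : CStarMatrix ν ν A))
      atTop (𝓝 (L * tm φ k)) := by
    have h1 : Tendsto (fun N : ℕ => ((N : ℝ) + 1)⁻¹) atTop (𝓝 0) := by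
      have := tendsto_one_div_add_atTop_nhds_zero_nat (𝕜 := ℝ)
      simpa using this
    have h2 := (h1.mul_const (tm φ (1 : CStarMatrix ν ν A))).const_add (L * tm φ k)
    simpa using h2
  exact ge_of_tendsto' hlim key

end Pool.Agent.Helper22.RC2.POS
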